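import Pool.Agent.H75.ST.Stmt
import Pool.Agent.H16.TK.BF

/-!
WLK: distances between points outside the pieces do not change.
-/

set_option autoImplicit false

open Set Pool.Agent.TK

namespace Pool.Agent.ST

private lemma ball_sub {C : Type} (M : St C) (B : Set ℕ) (x : ℕ) : ∀ m u, u ∈ ball M B x m →
    u = x ∨ u ∉ B := by
  intro m
  induction m with
  | zero => intro u hu; exact Or.inl hu
  | succ m ih =>
    intro u hu
    rcases hu with hu | hu
    · exact ih u hu
    · exact Or.inr hu.1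

private lemma ball_bf {C : Type} {M M' : St C} {U U' : Set ℕ} {x x' : ℕ} (hx : x ∈ U)
    : ∀ (m u u' : ℕ) (p : List (ℕ × ℕ)),
    bf M M' U U' (Rk.sucN m Rk.zero) p → (x, x') ∈ p → (u, u') ∈ p → u' ∈ U' →
    u ∈ ball M Uᶜ x m → u' ∈ ball M' U'ᶜ x' m := by
  intro m
  induction m with
  | zero =>
    intro u u' p hp hxp hup _ hu
    have h1 : u = x := hu
    have h2 : PI M M' p := hp
    exact (h2.1 (u, u') hup (x, x') hxp).1 h1
  | succ m ih =>
    intro u u' p hp hxp hup hu' hu
    have hp' : ∀ n : ℕ, bf M M' U U' (Rk.sucN m Rk.zero) p ∧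
      (∀ a ∈ U, ∃ b ∈ U', bf M M' U U' (Rk.sucN m Rk.zero) ((a, b) :: p)) ∧
      (∀ b ∈ U', ∃ a ∈ U, bf M M' U U' (Rk.sucN m Rk.zero) ((a, b) :: p)) := hp
    obtain ⟨h1, h2, -⟩ := hp' 0
    rcases hu with hu | ⟨-, s, hs, hsu⟩
    · exact Or.inl (ih u u' p h1 hxp hup hu' hu)
    · right
      refine ⟨fun h => h hu', ?_⟩
      have hsU : s ∈ U := by
        rcases ball_sub M Uᶜ x m s hs with h | h
        · rw [h]; exact hx
        · by_contra hn
          exact h hn
      obtain ⟨s', hs', h3⟩ := h2 s hsU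
      refine ⟨s', ih s s' _ h3 (List.mem_cons_of_mem _ hxp) List.mem_cons_self hs' hs, ?_⟩
      have h4 : PI M M' ((s, s') :: p) := bf_PI h3
      have h5 := h4.2.1 (s, s') List.mem_cons_self (u, u') (List.mem_cons_of_mem _ hup)
      rw [← h5]
      exact hsu

theorem pf_WLK {C : Type} [MeasurableSpace C] {c0 : C} (hSAT : SAT C c0) : WLK C c0 := by
  intro b X M w E D a R r h y B hB x hxB hxD m u huD
  obtain ⟨N, hN⟩ : ∃ N, N = repl c0 M a D R y := ⟨_, rfl⟩
  have hom : RLe C om b := ((RLe.lim om).trans (RLe.lim _)).trans h.hyp.base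
  have h1 : bf M N Bᶜ Bᶜ b (dg [x, u]) := by
    rw [hN]
    refine (hSAT b X M w E D a R r h y).2.1 Bᶜ ?_ [x, u] ?_
    · intro i hi
      left
      exact fun z hz hzB => Set.disjoint_left.1 (hB i hi) hz hzB
    · intro z hz i hi
      rcases List.mem_cons.1 hz with rfl | hz
      · exact hxD i hi
      · rcases List.mem_cons.1 hz with rfl | hz
        · exact huD i hi
        · simp at hz
  have h2 : bf M N Bᶜ Bᶜ (Rk.sucN m Rk.zero) (dg [x, u]) :=
    RLe.lim' m Rk.zero _ _ _ _ _ (hom _ _ _ _ _ h1)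
  have h3 : bf N M Bᶜ Bᶜ (Rk.sucN m Rk.zero) (dg [x, u]) := by
    have h4 := bf_symm h2
    exact h4
  rw [← hN]
  have hxU : x ∈ Bᶜ := hxB
  constructor
  · intro hu
    have huU : u ∈ Bᶜ := by
      rcases ball_sub M B x m u hu with h | h
      · rw [h]; exact hxU
      · exact h
    have h5 := ball_bf (x' := x) hxU m u u (dg [x, u]) h2 (by simp [dg]) (by simp [dg]) huU
      (by rw [compl_compl]; exact hu)
    rwa [compl_compl] at h5
  · intro hu
    have huU : u ∈ Bᶜ := by
      rcases ball_sub N B x m u hu with h | h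
      · rw [h]; exact hxU
      · exact h
    have h5 := ball_bf (x' := x) hxU m u u (dg [x, u]) h3 (by simp [dg]) (by simp [dg]) huU
      (by rw [compl_compl]; exact hu)
    rwa [compl_compl] at h5

end Pool.Agent.ST
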